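import Pool.Agent.helper5.LDH.Spec

set_option autoImplicit false

open Complex MeasureTheory

namespace Pool.Agent.LDH

open Pool.Agent.helper84.DM Pool.Agent.helper78.ED Pool.Agent.DH

theorem TAZ_log (κ : ℝ) (hκ : 0 < κ) : ∃ T₀ : ℝ, ∀ T : ℝ, T₀ ≤ T → 8 * Real.log T ≤ T ^ κ := by
  have h := (isLittleO_log_rpow_atTop hκ).bound (c := 1 / 8) (by norm_num)
  obtain ⟨a, ha⟩ := Filter.eventually_atTop.1 h
  refine ⟨max a 1, fun T hT => ?_⟩
  have h1 : a ≤ T := le_trans (le_max_left _ _) hT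
  have h2 : 1 ≤ T := le_trans (le_max_right _ _) hT
  have h3 := ha T h1
  rw [Real.norm_eq_abs, Real.norm_eq_abs, abs_of_nonneg (Real.log_nonneg h2),
    abs_of_nonneg (Real.rpow_nonneg (by linarith) κ)] at h3
  linarith

theorem TAZ (hTAY : Pool.Agent.DH.TAY_stmt) : TAZ_stmt := by
  intro κ hκ hκ1
  obtain ⟨T₁, h₁⟩ := hTAY 1 one_pos
  obtain ⟨T₂, h₂⟩ := TAZ_log κ hκ
  refine ⟨max (max T₁ T₂) (Real.exp 1), ?_⟩
  intro T hT σ c N ρ hσ hN hNT hc hρ hρ1 hbig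
  have hT1 : T₁ ≤ T := le_trans (le_trans (le_max_left _ _) (le_max_left _ _)) hT
  have hT2 : T₂ ≤ T := le_trans (le_trans (le_max_right _ _) (le_max_left _ _)) hT
  have hTe : Real.exp 1 ≤ T := le_trans (le_max_right _ _) hT
  have he : (1 : ℝ) < Real.exp 1 := by
    have := Real.add_one_lt_exp (x := 1) (by norm_num)
    linarith
  have hTg : 1 < T := lt_of_lt_of_le he hTe
  have hT0 : 0 < T := by linarith
  have hlog : 1 ≤ Real.log T := by
    rw [Real.le_log_iff_exp_le hT0]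
    exact hTe
  have hTT : T₁ ≤ T ^ 2 := by nlinarith
  have hlog2 : Real.log (T ^ 2) = 2 * Real.log T := by
    rw [Real.log_pow]
    norm_num
  have hκp : 0 < T ^ κ := Real.rpow_pos_of_pos hT0 κ
  have hsq : (T ^ 2) ^ κ = T ^ κ * T ^ κ := by
    rw [← Real.rpow_natCast T 2, ← Real.rpow_mul hT0.le, ← Real.rpow_add hT0]
    congr 1
    push_cast
    ring
  have hinv : T ^ κ * T ^ (-κ) = 1 := by
    rw [← Real.rpow_add hT0]
    simp
  have hnorm : ‖((T ^ κ : ℝ) : ℂ)‖ = T ^ κ := by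
    rw [Complex.norm_real, Real.norm_eq_abs, abs_of_pos hκp]
  have hsum : ∑ n ∈ Finset.Ioc N (2 * N), (((T ^ κ : ℝ) : ℂ) * c n) * (n : ℂ) ^ (-ρ) =
      ((T ^ κ : ℝ) : ℂ) * ∑ n ∈ Finset.Ioc N (2 * N), c n * (n : ℂ) ^ (-ρ) := by
    rw [Finset.mul_sum]
    exact Finset.sum_congr rfl fun n _ => by ring
  obtain ⟨j, hj, hle⟩ := h₁ (T ^ 2) κ σ hTT hκ.le hκ1 hσ (fun n => ((T ^ κ : ℝ) : ℂ) * c n) N hN hNT
    (fun n hn => by
      rw [norm_mul, hnorm, one_mul, hsq]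
      exact mul_le_mul_of_nonneg_left (hc n hn) hκp.le) ρ hρ hρ1
    (by
      rw [hsum, norm_mul, hnorm, one_mul, hlog2]
      have h3 : 1 / (2 * Real.log T) ≤ 1 := by
        rw [div_le_one (by linarith)]
        linarith
      have h4 : T ^ κ * T ^ (-κ) ≤ T ^ κ * ‖∑ n ∈ Finset.Ioc N (2 * N), c n * (n : ℂ) ^ (-ρ)‖ :=
        mul_le_mul_of_nonneg_left hbig hκp.le
      rw [hinv] at h4
      linarith)
  refine ⟨j, ?_, ?_⟩
  · rw [hlog2] at hj
    have : 8 * (2 * Real.log T) = 16 * Real.log T := by ring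
    rw [this] at hj
    exact hj
  · have hDP : DP N (fun n => (((T ^ κ : ℝ) : ℂ) * c n) *
        ((((N : ℝ) / n) ^ σ * Real.log ((n : ℝ) / N) ^ j : ℝ) : ℂ)) ρ.im =
        ((T ^ κ : ℝ) : ℂ) * DP N (fun n => c n * ((ww N σ j n : ℝ) : ℂ)) ρ.im := by
      unfold DP ww
      rw [Finset.mul_sum]
      exact Finset.sum_congr rfl fun n _ => by ring
    rw [hDP, norm_mul, hnorm, hlog2] at hle
    have h8 := h₂ T hT2
    set D := ‖DP N (fun n => c n * ((ww N σ j n : ℝ) : ℂ)) ρ.im‖ with hD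
    have hNσ : 0 ≤ (N : ℝ) ^ σ := Real.rpow_nonneg (Nat.cast_nonneg N) σ
    have h5 : (N : ℝ) ^ σ / T ^ κ ≤ (N : ℝ) ^ σ / (4 * 1 * (2 * Real.log T)) := by
      apply div_le_div_of_nonneg_left hNσ (by linarith)
      linarith
    have h6 : (N : ℝ) ^ σ / T ^ κ ≤ T ^ κ * D := le_trans h5 hle
    have h7 : T ^ (-(2 * κ)) = 1 / (T ^ κ * T ^ κ) := by
      rw [Real.rpow_neg hT0.le, ← Real.rpow_add hT0, one_div]
      congr 2
      ring
    rw [h7]
    rw [div_le_iff₀ hκp] at h6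
    rw [mul_one_div, div_le_iff₀ (mul_pos hκp hκp)]
    linarith

end Pool.Agent.LDH
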